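import Pool.Agent.H68.DRank.Free

set_option autoImplicit false

/-!
# Free or malnormal: a Freiheitssatz in the genus of a lattice in `PSL(2,ℝ)`

Let `A` be a finitely generated residually finite group with the same finite quotients as a finitely
generated group `B` which has a subgroup of index `c` and deficiency `e + 1` (for a lattice in
`PSL(2,ℝ)` there is such a subgroup with `e / c = -χ > 0`), and let `A'` be a subgroup of `A` of
finite index `m`. Then any `k ≤ 1 + m e / c` elements of `A'` which generate an infinite subgroup
are the basis of a free group, or they are contained in an almost malnormal subgroup of `A'` of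
infinite index. More precisely, if `k < 1 + m e / c + 1 / ℓ` then `k` elements which satisfy a
nontrivial relation of length at most `ℓ` are contained in such a subgroup. If `B` is free of rank
`n ≥ 2` then any `k ≤ 1 + m (n - 1)` elements of `A'`, not all trivial, are the basis of a free group
or they are contained in a malnormal subgroup of `A'` of infinite index.

Proof. Take a shortest relation between the elements. Its free derivatives are nonzero modulo all
sufficiently deep normal subgroups `N` of finite index, and give a linear relation between the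
values at the elements of the derivations into the functions on `A' / N`. The rank of this relation
is at least `[A' : N] / ℓ`, because a nonzero element of the group ring of a finite group `G` whose
support has `s` elements spans an ideal of dimension at least `|G| / s`. So the subgroup generated
by the elements has derivation rank at most `k - 1 / ℓ`, and the theory of the derivation rank
(Pool/Agent/H68/DRank) can be applied.
-/

namespace Pool.Agent.Results.MP_305fdd_al.FreeOrMalnormal

/-- the groups `A` and `B` have the same finite quotients -/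
def SameFiniteQuotients (A B : Type) [Group A] [Group B] : Prop :=
  ∀ (Q : Type) [Group Q] [Finite Q], (∃ f : A →* Q, Function.Surjective f) ↔
    ∃ f : B →* Q, Function.Surjective f

/-- the group `A` is residually finite -/
def ResiduallyFinite (A : Type) [Group A] : Prop :=
  ∀ a : A, a ≠ 1 → ∃ N : Subgroup A, N.Normal ∧ N.FiniteIndex ∧ a ∉ N

/-- the group `B` is finitely generated and has a subgroup of index `c` isomorphic to
`⟨X | rels⟩`, `X` finite, with `|X| ≥ |rels| + e + 1` -/
def HasDeficiency (B : Type) [Group B] (e c : ℕ) : Prop :=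
  Group.FG B ∧ 0 < c ∧ ∃ (X : Type) (_ : Fintype X) (rels : Finset (FreeGroup X))
    (j : PresentedGroup (rels : Set (FreeGroup X)) →* B),
    rels.card + e + 1 ≤ Fintype.card X ∧ Function.Injective j ∧ j.range.index = c

/-- `M ∩ t M t⁻¹` is finite for all `t` outside `M` -/
def AlmostMalnormal {G : Type} [Group G] (M : Subgroup G) : Prop :=
  ∀ t : G, t ∉ M → {a : G | a ∈ M ∧ t⁻¹ * a * t ∈ M}.Finite

/-- `M ∩ t M t⁻¹` is trivial for all `t` outside `M` -/
def Malnormal {G : Type} [Group G] (M : Subgroup G) : Prop :=
  ∀ t : G, t ∉ M → ∀ a ∈ M, t⁻¹ * a * t ∈ M → a = 1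

/-- the `x i` are the basis of a free subgroup: only the trivial element of the free group is mapped
to `1` by the homomorphism with `i ↦ x i` -/
def FreeBasis {G : Type} [Group G] {k : ℕ} (x : Fin k → G) : Prop :=
  Function.Injective (FreeGroup.lift x)

/-- the `x i` satisfy a nontrivial relation of length at most `l`: a word of length at most `l` in
the `x i` and their inverses, which is not trivial in the free group, has the value `1` -/
def HasRelation {G : Type} [Group G] {k : ℕ} (x : Fin k → G) (l : ℕ) : Prop :=
  ∃ w : List (Fin k × Bool), w.length ≤ l ∧ FreeGroup.mk w ≠ 1 ∧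
    FreeGroup.lift x (FreeGroup.mk w) = 1

/-- the `x i` are contained in an almost malnormal subgroup of infinite index -/
def InAlmostMalnormal {G : Type} [Group G] {k : ℕ} (x : Fin k → G) : Prop :=
  ∃ M : Subgroup G, (∀ i, x i ∈ M) ∧ AlmostMalnormal M ∧ M.index = 0

/-- the `x i` are contained in a malnormal subgroup of infinite index -/
def InMalnormal {G : Type} [Group G] {k : ℕ} (x : Fin k → G) : Prop :=
  ∃ M : Subgroup G, (∀ i, x i ∈ M) ∧ Malnormal M ∧ M.index = 0

open Pool.Agent.H68.DR

/-- Main theorem. Let `A` be a finitely generated residually finite group, and `A'` a subgroup of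
`A` of finite index `m`.

(1) Let `A` have the same finite quotients as a finitely generated group `B` which has a subgroup of
finite index `c` isomorphic to `⟨X | rels⟩` with `|X| ≥ |rels| + e + 1`. Let `x i`, `i < k`, be
elements of `A'` which generate an infinite subgroup. If `k ≤ 1 + m e / c` then the `x i` are the
basis of a free group or contained in an almost malnormal subgroup of `A'` of infinite index. If
`l ≥ 1` and `k < 1 + m e / c + 1 / l` then the same holds if the `x i` satisfy a nontrivial relation
of length at most `l`.

(2) Let `A` have the same finite quotients as a free group of finite rank `n ≥ 2`. Let `x i`,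
`i < k`, be elements of `A'`, not all trivial, and `k ≤ 1 + m (n - 1)`. Then the `x i` are the basis
of a free group or contained in a malnormal subgroup of `A'` of infinite index. -/
theorem result (A : Type) [Group A] (hA : Group.FG A) (hr : ResiduallyFinite A) :
    (∀ (B : Type) [Group B] (e c : ℕ), HasDeficiency B e c → SameFiniteQuotients A B →
      ∀ A' : Subgroup A, A'.FiniteIndex → ∀ (k : ℕ) (x : Fin k → A'),
        Infinite (Subgroup.closure (Set.range x)) →
        ((k : ℝ) ≤ 1 + (A'.index : ℝ) * e / c → FreeBasis x ∨ InAlmostMalnormal x) ∧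
        (∀ l : ℕ, 1 ≤ l → (k : ℝ) < 1 + (A'.index : ℝ) * e / c + 1 / l → HasRelation x l →
          InAlmostMalnormal x)) ∧
    (∀ (X : Type) [Fintype X], 2 ≤ Fintype.card X → SameFiniteQuotients A (FreeGroup X) →
      ∀ A' : Subgroup A, A'.FiniteIndex → ∀ (k : ℕ) (x : Fin k → A'), (∃ i, x i ≠ 1) →
        k ≤ 1 + A'.index * (Fintype.card X - 1) → FreeBasis x ∨ InMalnormal x) := by
  have gen : ∀ {G : Type} [Group G] [Group.FG G] (hr : RF G) {ρ : ℝ} (h : SmallSubgroups G ρ)
      {k : ℕ} (x : Fin k → G) (_ : Infinite (Subgroup.closure (Set.range x))) (l : ℕ)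
      (_ : (k : ℝ) < ρ + 1 / l) (_ : HasRelation x l),
      ∃ M : Subgroup G, (∀ i, x i ∈ M) ∧ Pool.Agent.H68.DR.AlmostMalnormal M ∧ M.index = 0 ∧
        ∃ r, MaxDR r M := by
    intro G _ _ hr ρ h k x hinf l hk ⟨w, hwl, hw, hw1⟩
    have hpos : 0 < w.length := by
      rw [List.length_pos_iff]
      rintro rfl
      exact hw FreeGroup.one_eq_mk.symm
    refine hull_of_relation hr h x hinf hw hw1 (hk.trans_le ?_)
    have h1 : (0 : ℝ) < w.length := by exact_mod_cast hpos
    have h2 : (w.length : ℝ) ≤ l := by exact_mod_cast hwl
    have := one_div_le_one_div_of_le h1 h2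
    linarith
  have rel : ∀ {G : Type} [Group G] {k : ℕ} (x : Fin k → G), ¬ FreeBasis x →
      ∃ l : ℕ, 1 ≤ l ∧ HasRelation x l := by
    intro G _ k x hx
    obtain ⟨w, h1, h2, h3⟩ := exists_relation x hx
    exact ⟨w.length, h3, w, le_rfl, h1, h2⟩
  refine ⟨?_, ?_⟩
  · rintro B _ e c ⟨hB, hc, X, _, rels, j, hd, hj, rfl⟩ hAB A' hf k x hinf
    have hjf : j.range.FiniteIndex := ⟨hc.ne'⟩
    have hfgL : Group.FG (PresentedGroup (rels : Set (FreeGroup X))) :=
      Group.fg_of_surjective (PresentedGroup.mk_surjective (rels : Set (FreeGroup X)))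
    have hmany : Many A (e + 1) j.range.index := by
      refine many (fun Q _ _ => hAB Q) j hj (e + 1) ?_
      intro H _
      have h := Pool.Agent.R369.GPZD.t_ZD X rels H
      have h2 : (rels.card + (e + 1)) * H.index ≤ Fintype.card X * H.index :=
        Nat.mul_le_mul_right _ (by omega)
      rw [Nat.add_mul] at h2
      omega
    have hsm := cons_sub hr hc hmany A' hf
    have hrel : ∀ l : ℕ, 1 ≤ l → (k : ℝ) < 1 + (A'.index : ℝ) * e / j.range.index + 1 / l →
        HasRelation x l → InAlmostMalnormal x := by
      intro l hl hk hx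
      obtain ⟨M, h1, h2, h3, -⟩ := gen (rf_sub hr A') hsm x hinf l hk hx
      exact ⟨M, h1, h2, h3⟩
    refine ⟨fun hk => ?_, hrel⟩
    by_cases hx : FreeBasis x
    · exact Or.inl hx
    · obtain ⟨l, hl, hxl⟩ := rel x hx
      have h1 : (0 : ℝ) < 1 / l := by
        have : (0 : ℝ) < l := by exact_mod_cast hl
        positivity
      exact Or.inr (hrel l hl (by linarith) hxl)
  · intro X _ hX hAX A' hf k x hx1 hk
    by_cases hx : FreeBasis x
    · exact Or.inl hx
    right
    have hCO := Pool.Agent.R221.GPCO.t_CO
    have hGQ := Pool.Agent.R335.GPGQ.t_GQ hCO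
    have htf : ∀ a : A, IsOfFinOrder a → a = 1 :=
      Pool.Agent.R684.GP.t_TF hCO hGQ A X (fun Q _ _ => hAX Q) hr
    have htf' : ∀ a : A', IsOfFinOrder a → a = 1 := fun a h =>
      Subtype.ext (htf _ (A'.subtype.isOfFinOrder h))
    obtain ⟨e, he⟩ : ∃ e, Fintype.card X = e + 1 := ⟨Fintype.card X - 1, by omega⟩
    have hfi : (MonoidHom.id (FreeGroup X)).range.FiniteIndex := by
      have : (MonoidHom.id (FreeGroup X)).range = ⊤ := MonoidHom.range_eq_top.2 fun x => ⟨x, rfl⟩
      rw [this]
      infer_instance
    have hmany : Many A (e + 1) 1 := by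
      have h := many (fun Q _ _ => hAX Q) (MonoidHom.id (FreeGroup X)) (fun _ _ h => h)
        (Fintype.card X) (fun H _ => (Pool.Agent.R690.GPZF.t_ZF X H).ge)
      have e1 : (MonoidHom.id (FreeGroup X)).range.index = 1 := by
        have : (MonoidHom.id (FreeGroup X)).range = ⊤ :=
          MonoidHom.range_eq_top.2 fun x => ⟨x, rfl⟩
        rw [this, Subgroup.index_top]
      rwa [e1, he] at h
    have hsm := cons_sub hr one_pos hmany A' hf
    rw [Nat.cast_one, div_one] at hsm
    have hne : Subgroup.closure (Set.range x) ≠ ⊥ := by
      intro h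
      obtain ⟨i, hi⟩ := hx1
      have h2 : x i ∈ Subgroup.closure (Set.range x) := Subgroup.subset_closure ⟨i, rfl⟩
      rw [h, Subgroup.mem_bot] at h2
      exact hi h2
    obtain ⟨l, hl, hxl⟩ := rel x hx
    have h1 : (0 : ℝ) < 1 / l := by
      have : (0 : ℝ) < l := by exact_mod_cast hl
      positivity
    have h2 : (k : ℝ) ≤ 1 + (A'.index : ℝ) * e := by
      rw [he, Nat.add_sub_cancel] at hk
      exact_mod_cast hk
    obtain ⟨M, h3, -, h4, r, h5⟩ := gen (rf_sub hr A') hsm x
      (infinite_of_ne htf' _ hne) l (by linarith) hxl
    exact ⟨M, h3, mal (rf_sub hr A') htf' h5, h4⟩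

end Pool.Agent.Results.MP_305fdd_al.FreeOrMalnormal
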