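import Pool.Agent.H68.DRank.Final
import Pool.Agent.H61.BNS.Main

set_option autoImplicit false

/-!
# Malnormal hulls in groups with the finite quotients of a lattice in `PSL(2,ℝ)`

Let `A` be a finitely generated residually finite group. The *derivation rank* of a subgroup `H` is
at most `r` if, up to arbitrarily small multiples of the index of `N`, the restrictions to (large
finite subsets of) `H` of the derivations of `A` into the functions on `A ⧸ N` form a space of
dimension at most `r [A : N]`, for all sufficiently deep normal subgroups `N` of finite index. A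
subgroup with `n` generators has derivation rank at most `n`.

If `A` has the same finite quotients as a finitely generated group `B` which has a subgroup of
index `c` and deficiency `e + 1` (every lattice in `PSL(2,ℝ)` has such a subgroup with
`e / c = -χ > 0`), then for every subgroup `A'` of finite index `m` in `A` every infinite subgroup
of `A'` of derivation rank less than `1 + m e / c` is contained in an almost malnormal subgroup of
`A'` of infinite index; and the elements of infinite order are partitioned by the maximal subgroups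
of derivation rank at most one, which are almost malnormal and of infinite index. If `A` has the
finite quotients of a free group of rank `n ≥ 2`, every nontrivial subgroup of `A'` with at most
`m (n - 1)` generators is contained in a malnormal subgroup of `A'` of infinite index. If `e ≥ 1`,
the Bieri-Neumann-Strebel invariant of every such `A'` is empty.

The theory of the derivation rank is by helper68 (Pool/Agent/H68/DRank), the theorem on the
Bieri-Neumann-Strebel invariant by helper61 (Pool/Agent/H61/BNS).
-/

namespace Pool.Agent.Results.MP_305fdd_al.MalnormalHulls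

/-- the groups `A` and `B` have the same finite quotients -/
def SameFiniteQuotients (A B : Type) [Group A] [Group B] : Prop :=
  ∀ (Q : Type) [Group Q] [Finite Q], (∃ f : A →* Q, Function.Surjective f) ↔
    ∃ f : B →* Q, Function.Surjective f

/-- the group `A` is residually finite -/
def ResiduallyFinite (A : Type) [Group A] : Prop :=
  ∀ a : A, a ≠ 1 → ∃ N : Subgroup A, N.Normal ∧ N.FiniteIndex ∧ a ∉ N

/-- the space of the derivations of `A` into the complex functions on `A ⧸ N` which vanish on `K`:
the maps `f` with `f (g h) = f g + g • f h`, where `(g • u) x = u (g⁻¹ x)`, and `f = 0` on `K` -/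
def vanishing {A : Type} [Group A] (N : Subgroup A) (K : Set A) :
    Submodule ℂ (A → (A ⧸ N) → ℂ) where
  carrier := {f | (∀ (g h : A) (x : A ⧸ N), f (g * h) x = f g x + f h (g⁻¹ • x)) ∧
    ∀ k ∈ K, f k = 0}
  add_mem' := by
    rintro c d ⟨hc, hc'⟩ ⟨hd, hd'⟩
    refine ⟨fun g h x => ?_, fun k hk => ?_⟩
    · simp only [Pi.add_apply, hc g h x, hd g h x]
      ring
    · rw [Pi.add_apply, hc' k hk, hd' k hk, add_zero]
  zero_mem' := ⟨by intro g h x; simp, fun _ _ => rfl⟩
  smul_mem' := by
    rintro a c ⟨hc, hc'⟩
    refine ⟨fun g h x => ?_, fun k hk => ?_⟩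
    · simp only [Pi.smul_apply, hc g h x, smul_eq_mul]
      ring
    · rw [Pi.smul_apply, hc' k hk, smul_zero]

/-- the dimension of the space of the derivations into the functions on `A ⧸ N` which vanish
on `K` -/
noncomputable def derDim {A : Type} [Group A] (N : Subgroup A) (K : Set A) : ℕ :=
  Module.finrank ℂ (vanishing N K)

variable {A : Type} [Group A]

/-- The derivation rank of `H` is at most `r`: for every `ε > 0` every finite subset of `H` is
contained in a finite subset `F'` of `H` such that, for all normal subgroups `N` of finite index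
in `A` which are contained in some `R`, the derivations into the functions on `A ⧸ N` which vanish
on `F'` have codimension at most `(r + ε) [A : N]` in the space of all derivations. -/
def DerRankLE (r : ℝ) (H : Subgroup A) : Prop :=
  ∀ ε : ℝ, 0 < ε → ∀ F : Finset A, (F : Set A) ⊆ H →
    ∃ F' : Finset A, F ⊆ F' ∧ (F' : Set A) ⊆ H ∧
      ∃ R : Subgroup A, R.Normal ∧ R.FiniteIndex ∧
        ∀ N : Subgroup A, N.Normal → N.FiniteIndex → N ≤ R →
          (derDim N ∅ : ℝ) ≤ derDim N (F' : Set A) + (r + ε) * N.index

/-- `M` is a maximal subgroup of derivation rank at most `r` -/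
def MaxDerRank (r : ℝ) (M : Subgroup A) : Prop :=
  DerRankLE r M ∧ ∀ K : Subgroup A, DerRankLE r K → M ≤ K → K = M

/-- `M ∩ t M t⁻¹` is finite for all `t` outside `M` -/
def AlmostMalnormal (M : Subgroup A) : Prop :=
  ∀ t : A, t ∉ M → {a : A | a ∈ M ∧ t⁻¹ * a * t ∈ M}.Finite

/-- `M ∩ t M t⁻¹` is trivial for all `t` outside `M` -/
def Malnormal (M : Subgroup A) : Prop :=
  ∀ t : A, t ∉ M → ∀ a ∈ M, t⁻¹ * a * t ∈ M → a = 1

/-- The Cayley graph of `G` with respect to `S`: the neighbours of `g` are the elements `g s` and
`g s⁻¹` (different from `g`), `s ∈ S`. -/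
def cayley {G : Type} [Group G] (S : Set G) : SimpleGraph G where
  Adj x y := x ≠ y ∧ (x⁻¹ * y ∈ S ∨ y⁻¹ * x ∈ S)
  symm := ⟨fun _ _ h => ⟨h.1.symm, h.2.symm⟩⟩
  loopless := ⟨fun _ h => h.1 rfl⟩

/-- The half space `{g | 0 ≤ χ g}` of a real character `χ` in the Cayley graph is connected, that
is, the class of `χ` is in the Bieri-Neumann-Strebel invariant. -/
def HalfConnected {G : Type} [Group G] (S : Set G) (χ : G →* Multiplicative ℝ) : Prop :=
  ((cayley S).induce {g | 0 ≤ Multiplicative.toAdd (χ g)}).Connected

/-- The subgroups of `A` of derivation rank less than `ρ` are small: they do not generate `A` if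
the sum of their derivation ranks is less than `ρ`, and every infinite one has infinite index and
is contained in an almost malnormal subgroup of infinite index, which is maximal among the
subgroups of the same derivation rank. -/
def SmallSubgroups (A : Type) [Group A] (ρ : ℝ) : Prop :=
  (∀ (k : ℕ) (H : Fin k → Subgroup A) (r : Fin k → ℝ), (∀ i, DerRankLE (r i) (H i)) →
    ⨆ i, H i = ⊤ → ρ ≤ ∑ i, r i) ∧
  (∀ (r : ℝ) (H : Subgroup A), r < ρ → Infinite H → DerRankLE r H →
    H.index = 0 ∧ ∃ M : Subgroup A, H ≤ M ∧ MaxDerRank r M ∧ AlmostMalnormal M ∧ M.index = 0)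

/-- The rules for the derivation rank: it is at most the number of generators; it does not grow if
an element `t` with `H ∩ t H t⁻¹` infinite is added to `H`; it is subadditive, and submodular if the
intersection is infinite; it is invariant under conjugation; every subgroup of derivation rank at
most `r` is contained in a maximal one. -/
def RankRules (A : Type) [Group A] : Prop :=
  (∀ S : Finset A, DerRankLE (S.card : ℝ) (Subgroup.closure (S : Set A))) ∧
  (∀ (r : ℝ) (H : Subgroup A) (t : A), DerRankLE r H →
    {a : A | a ∈ H ∧ t⁻¹ * a * t ∈ H}.Infinite → DerRankLE r (H ⊔ Subgroup.closure {t})) ∧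
  (∀ (r s : ℝ) (H K : Subgroup A), DerRankLE r H → DerRankLE s K →
    DerRankLE (r + s) (H ⊔ K) ∧
    ({a : A | a ∈ H ∧ a ∈ K}.Infinite → DerRankLE (r + s - 1) (H ⊔ K))) ∧
  (∀ (r : ℝ) (H : Subgroup A) (t : A), DerRankLE r H →
    DerRankLE r (H.map (MulAut.conj t).toMonoidHom)) ∧
  (∀ (r : ℝ) (H : Subgroup A), DerRankLE r H → ∃ M, H ≤ M ∧ MaxDerRank r M)

/-- The maximal subgroups of derivation rank at most `r` are almost malnormal and permuted by the
conjugations; for `r = 1` two different ones have a finite intersection, and every element of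
infinite order is in exactly one of them, which also contains its centralizer. -/
def MaximalRules (A : Type) [Group A] : Prop :=
  (∀ (r : ℝ) (M : Subgroup A), MaxDerRank r M → AlmostMalnormal M ∧
    ∀ t : A, MaxDerRank r (M.map (MulAut.conj t).toMonoidHom)) ∧
  (∀ M M' : Subgroup A, MaxDerRank 1 M → MaxDerRank 1 M' → M ≠ M' →
    {a : A | a ∈ M ∧ a ∈ M'}.Finite) ∧
  (∀ g : A, ¬ IsOfFinOrder g → (∃! M : Subgroup A, g ∈ M ∧ MaxDerRank 1 M) ∧
    ∀ M : Subgroup A, g ∈ M → MaxDerRank 1 M → Subgroup.centralizer {g} ≤ M)

/-- the group `B` is finitely generated and has a subgroup of index `c` isomorphic to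
`⟨X | rels⟩`, `X` finite, with `|X| ≥ |rels| + e + 1` -/
def HasDeficiency (B : Type) [Group B] (e c : ℕ) : Prop :=
  Group.FG B ∧ 0 < c ∧ ∃ (X : Type) (_ : Fintype X) (rels : Finset (FreeGroup X))
    (j : PresentedGroup (rels : Set (FreeGroup X)) →* B),
    rels.card + e + 1 ≤ Fintype.card X ∧ Function.Injective j ∧ j.range.index = c

/-- The half spaces of all nontrivial real characters in all Cayley graphs of `G` are
disconnected: the Bieri-Neumann-Strebel invariant of `G` is empty. -/
def BNSEmpty (G : Type) [Group G] : Prop :=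
  ∀ S : Set G, S.Finite → Subgroup.closure S = ⊤ →
    ∀ χ : G →* Multiplicative ℝ, χ ≠ 1 → ¬ HalfConnected S χ

open Pool.Agent.H68.DR

theorem dim_eq (N : Subgroup A) (K : Set A) : derDim N K = Module.finrank ℂ (Van N K) := by
  have : vanishing N K = (Van N K).map (Pool.Agent.R684.VG.Zp A N).subtype := by
    ext f
    constructor
    · rintro ⟨h1, h2⟩
      exact ⟨⟨f, h1⟩, h2, rfl⟩
    · rintro ⟨⟨g, h1⟩, h2, rfl⟩
      exact ⟨h1, h2⟩
  unfold derDim
  rw [this, Submodule.finrank_map_subtype_eq]

theorem dim_empty (N : Subgroup A) :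
    derDim N (∅ : Set A) = Module.finrank ℂ (Pool.Agent.R684.VG.Zp A N) := by
  rw [dim_eq]
  have : Van N (∅ : Set A) = ⊤ := by
    rw [eq_top_iff]
    intro f _ k hk
    exact absurd hk (Set.notMem_empty k)
  rw [this, finrank_top]

theorem drk_eq (r : ℝ) (H : Subgroup A) : DerRankLE r H = DR r H := by
  unfold DerRankLE DR
  apply propext
  constructor
  · intro h ε hε F hF
    obtain ⟨F', h1, h2, R, h3, h4, h5⟩ := h ε hε F hF
    refine ⟨F', h1, h2, R, h3, h4, fun N a b c => ?_⟩
    have h6 := h5 N a b c
    rwa [dim_empty, dim_eq] at h6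
  · intro h ε hε F hF
    obtain ⟨F', h1, h2, R, h3, h4, h5⟩ := h ε hε F hF
    refine ⟨F', h1, h2, R, h3, h4, fun N a b c => ?_⟩
    rw [dim_empty, dim_eq]
    exact h5 N a b c

theorem max_eq (r : ℝ) (M : Subgroup A) : MaxDerRank r M = MaxDR r M := by
  unfold MaxDerRank MaxDR
  simp only [drk_eq]

theorem am_eq (M : Subgroup A) : AlmostMalnormal M = Pool.Agent.H68.DR.AlmostMalnormal M := rfl

theorem mal_eq (M : Subgroup A) : Malnormal M = Pool.Agent.H68.DR.Malnormal M := rfl

theorem small_eq (A : Type) [Group A] (ρ : ℝ) :
    SmallSubgroups A ρ = Pool.Agent.H68.DR.SmallSubgroups A ρ := by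
  unfold SmallSubgroups Pool.Agent.H68.DR.SmallSubgroups
  simp only [drk_eq, max_eq, am_eq]

/-- Main theorem. Let `A` be a finitely generated residually finite group.

(1) The derivation rank satisfies `RankRules` and `MaximalRules`.

(2) Let `A` have the same finite quotients as a finitely generated group `B` which has a subgroup of
finite index `c` isomorphic to `⟨X | rels⟩` with `|X| ≥ |rels| + e + 1`. Then the subgroups of `A` of
derivation rank less than `1 + e / c` are small, and so are those of derivation rank less than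
`1 + m e / c` in every subgroup `A'` of `A` of finite index `m` (`SmallSubgroups`). If `e ≥ 1`, every
maximal subgroup of `A` of derivation rank at most one which contains an element of infinite order
has infinite index, and the Bieri-Neumann-Strebel invariant of `A'` is empty.

(3) Let `A` have the same finite quotients as a free group of finite rank `n ≥ 2`. Every nontrivial
subgroup with at most `m (n - 1)` generators of a subgroup `A'` of finite index `m` in `A` is
contained in a subgroup of infinite index which is malnormal in `A'`; and `A ∖ 1` is partitioned by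
malnormal subgroups of infinite index, the nontrivial maximal subgroups of derivation rank at most
one. -/
theorem result (A : Type) [Group A] (hA : Group.FG A) (hr : ResiduallyFinite A) :
    (RankRules A ∧ MaximalRules A) ∧
    (∀ (B : Type) [Group B] (e c : ℕ), HasDeficiency B e c → SameFiniteQuotients A B →
      SmallSubgroups A (1 + (e : ℝ) / c) ∧
      (∀ A' : Subgroup A, A'.FiniteIndex → SmallSubgroups A' (1 + (A'.index : ℝ) * e / c)) ∧
      (1 ≤ e → ∀ (g : A) (M : Subgroup A), ¬ IsOfFinOrder g → g ∈ M → MaxDerRank 1 M →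
        M.index = 0) ∧
      (1 ≤ e → ∀ A' : Subgroup A, A'.FiniteIndex → BNSEmpty A')) ∧
    (∀ (X : Type) [Fintype X], 2 ≤ Fintype.card X → SameFiniteQuotients A (FreeGroup X) →
      (∀ A' : Subgroup A, A'.FiniteIndex → ∀ S : Finset A',
        S.card ≤ A'.index * (Fintype.card X - 1) → (∃ s ∈ S, s ≠ 1) →
        ∃ M : Subgroup A', (S : Set A') ⊆ M ∧ Malnormal M ∧ M.index = 0) ∧
      (∀ g : A, g ≠ 1 → ∃! M : Subgroup A, g ∈ M ∧ MaxDerRank 1 M) ∧
      (∀ M : Subgroup A, MaxDerRank 1 M → M ≠ ⊥ → Malnormal M ∧ M.index = 0) ∧
      (∀ M M' : Subgroup A, MaxDerRank 1 M → MaxDerRank 1 M' → M ≠ M' → M ⊓ M' = ⊥)) := by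
  unfold RankRules MaximalRules
  simp only [small_eq, drk_eq, max_eq, am_eq, mal_eq]
  classical
  have disj : ∀ M M' : Subgroup A, MaxDR 1 M → MaxDR 1 M' → M ≠ M' →
      {a : A | a ∈ M ∧ a ∈ M'}.Finite := by
    intro M M' h h' hne
    by_contra hinf
    exact hne (max_disjoint hr h h' hinf)
  refine ⟨⟨⟨dr_closure, fun r H t h hi => dr_insert hr h t hi,
    fun r s H K h1 h2 => ⟨dr_sup h1 h2, fun hi => dr_join hr h1 h2 hi⟩,
    fun r H t h => dr_conj h t, fun r H h => exists_max h⟩,
    fun r M h => ⟨am hr h, fun t => max_conj h t⟩, disj, ?_⟩, ?_, ?_⟩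
  · intro g hg
    refine ⟨part hr hg, fun M hgM hM t ht => ?_⟩
    refine max_malnormal hr hM t ?_
    have hinj : Function.Injective fun n : ℕ => g ^ n := injective_pow_iff_not_isOfFinOrder.2 hg
    refine (Set.infinite_range_of_injective hinj).mono ?_
    rintro _ ⟨n, rfl⟩
    have hcomm : Commute g t := by
      have := Subgroup.mem_centralizer_iff.1 ht g rfl
      exact this
    have e : t⁻¹ * g ^ n * t = g ^ n := by
      rw [mul_assoc, (hcomm.pow_left n).eq, inv_mul_cancel_left]
    refine ⟨M.pow_mem hgM n, ?_⟩
    show t⁻¹ * g ^ n * t ∈ M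
    rw [e]
    exact M.pow_mem hgM n
  · rintro B _ e c ⟨hB, hc, X, _, rels, j, hd, hj, rfl⟩ hAB
    have hjf : j.range.FiniteIndex := ⟨hc.ne'⟩
    have hfgL : Group.FG (PresentedGroup (rels : Set (FreeGroup X))) :=
      Group.fg_of_surjective (PresentedGroup.mk_surjective (rels : Set (FreeGroup X)))
    have hmany : Many A (e + 1) j.range.index := by
      refine many (fun Q _ _ => hAB Q) j hj (e + 1) ?_
      intro H _
      have h := Pool.Agent.R369.GPZD.t_ZD X rels H
      have h2 : (rels.card + (e + 1)) * H.index ≤ Fintype.card X * H.index :=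
        Nat.mul_le_mul_right _ (by omega)
      rw [Nat.add_mul] at h2
      omega
    have hsm := cons hr hc hmany
    refine ⟨hsm, fun A' hf => cons_sub hr hc hmany A' hf, fun he g M hg hgM hM => ?_,
      fun he A' hf S hS hgen χ hχ => Pool.Agent.H61.BNS.main A B
        (Pool.Agent.H61.BNS.posGrad_of_deficiency rels j (by omega) hj hjf) (fun Q _ _ => hAB Q)
        A' S hS hgen χ hχ⟩
    have hc' : (0 : ℝ) < j.range.index := by exact_mod_cast hc
    have he' : (0 : ℝ) < e := by exact_mod_cast he
    refine (hsm.2 1 M ?_ ?_ hM.1).1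
    · have : 0 < (e : ℝ) / j.range.index := div_pos he' hc'
      linarith
    · have h3 := inf_of_mem hg hgM hgM
      have h4 : {a : A | a ∈ M ∧ a ∈ M} = (M : Set A) := by
        ext a
        exact and_self_iff
      rw [h4] at h3
      exact h3.to_subtype
  · intro X _ hX hAX
    have hCO := Pool.Agent.R221.GPCO.t_CO
    have hGQ := Pool.Agent.R335.GPGQ.t_GQ hCO
    have htf : ∀ a : A, IsOfFinOrder a → a = 1 :=
      Pool.Agent.R684.GP.t_TF hCO hGQ A X (fun Q _ _ => hAX Q) hr
    have hfi : (MonoidHom.id (FreeGroup X)).range.FiniteIndex := by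
      have : (MonoidHom.id (FreeGroup X)).range = ⊤ := MonoidHom.range_eq_top.2 fun x => ⟨x, rfl⟩
      rw [this]
      infer_instance
    obtain ⟨e, he⟩ : ∃ e, Fintype.card X = e + 1 := ⟨Fintype.card X - 1, by omega⟩
    have hmany : Many A (e + 1) 1 := by
      have h := many (fun Q _ _ => hAX Q) (MonoidHom.id (FreeGroup X)) (fun _ _ h => h)
        (Fintype.card X) (fun H _ => (Pool.Agent.R690.GPZF.t_ZF X H).ge)
      have e1 : (MonoidHom.id (FreeGroup X)).range.index = 1 := by
        have : (MonoidHom.id (FreeGroup X)).range = ⊤ :=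
          MonoidHom.range_eq_top.2 fun x => ⟨x, rfl⟩
        rw [this, Subgroup.index_top]
      rwa [e1, he] at h
    have he1 : (1 : ℝ) ≤ e := by
      have : 1 ≤ e := by omega
      exact_mod_cast this
    have hsm := cons hr one_pos hmany
    refine ⟨?_, ?_, ?_, ?_⟩
    · intro A' hf S hS hS1
      have htf' : ∀ a : A', IsOfFinOrder a → a = 1 := fun a h =>
        Subtype.ext (htf _ (A'.subtype.isOfFinOrder h))
      refine env (rf_sub hr A') htf' (cons_sub hr one_pos hmany A' hf) S ?_ hS1
      have h1 : S.card ≤ A'.index * e := by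
        rw [he, Nat.add_sub_cancel] at hS
        exact hS
      have h2 : (S.card : ℝ) ≤ A'.index * e := by exact_mod_cast h1
      rw [Nat.cast_one, div_one]
      linarith
    · intro g hg
      exact part hr fun h => hg (htf g h)
    · intro M hM hne
      refine ⟨mal hr htf hM, (hsm.2 1 M ?_ (infinite_of_ne htf M hne) hM.1).1⟩
      rw [Nat.cast_one, div_one]
      linarith
    · intro M M' hM hM' hne
      rw [Subgroup.eq_bot_iff_forall]
      intro a ha
      by_contra ha1
      have hinf : ¬ IsOfFinOrder a := fun h => ha1 (htf a h)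
      exact inf_of_mem hinf ha.1 ha.2 (disj M M' hM hM' hne)

end Pool.Agent.Results.MP_305fdd_al.MalnormalHulls
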