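import Pool.Agent.H61.AM.Gen

/-!
# Groups with the finite quotients of a free group, generated by subgroups of small total rank

Let `A` be a finitely generated residually finite group with the same finite quotients as the free
group `F_n`. We show: if `A` is generated by `n` subgroups none of which contains a nonabelian free
group (for example by `n` amenable subgroups), then `A` is free of rank `n`. More generally let `A`
be generated by subgroups `L_1, ..., L_k`, and let `r_1 + ... + r_k ≤ n`, where either all images of
`L_i` in finite quotients of `A` are generated by `r_i` elements, or `r_i = 1` and `L_i` does not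
contain a nonabelian free group. Then `r_1 + ... + r_k = n`, `A` is the free product of the `L_i`,
every `L_i` has the same finite quotients as the free group of rank `r_i`, and `L_i` is infinite
cyclic if `r_i = 1`.

Proof. All homomorphisms from `A` to finite groups lift along surjections. So two elements of a
subgroup of finite index which are independent modulo `p` generate a free group: lift to a finite
quotient `F / N` of a free group `F` and use homomorphisms from a subgroup of finite index of `F`
to finite `p`-groups with prescribed values. Hence the images of a subgroup without nonabelian free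
subgroups have cyclic Sylow subgroups. Since the images modulo `p` are not trivial, by counting, they
are cyclic (the order and the index of the commutator subgroup of such a group are coprime). So we
may suppose that the images of `L_i` are generated by `r_i` elements. For a finite group `Q` there
are `|Q| ^ n` homomorphisms from `A` to `Q`, and they are determined by their restrictions to the
`L_i`, of which there are at most `|Q| ^ (r_i)`. So the restrictions can be prescribed arbitrarily,
and the residual finiteness of the free product of finite groups gives the free product.
-/

set_option autoImplicit false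

namespace Pool.Agent.Results.MP_305fdd_al.RankAdditive

/-- `A` and `B` have the same finite quotients. -/
def SameFiniteQuotients (A B : Type) [Group A] [Group B] : Prop :=
  ∀ (Q : Type) [Group Q] [Finite Q], (∃ f : A →* Q, Function.Surjective f) ↔
    ∃ f : B →* Q, Function.Surjective f

/-- `A` is residually finite. -/
def ResiduallyFinite (A : Type) [Group A] : Prop :=
  ∀ x : A, x ≠ 1 → ∃ (Q : Type) (_ : Group Q) (_ : Finite Q) (f : A →* Q), f x ≠ 1

/-- The subgroup `L` contains no free group of rank two: no two elements `x`, `y` of `L` are free
generators of a subgroup. -/
def NoFreeSubgroup {A : Type} [Group A] (L : Subgroup A) : Prop :=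
  ∀ x ∈ L, ∀ y ∈ L, ¬ Function.Injective (FreeGroup.lift ![x, y])

/-- The image of the subgroup `L` under every homomorphism from `A` to a finite group is generated
by `r` elements. -/
def ImagesRankLE {A : Type} [Group A] (L : Subgroup A) (r : ℕ) : Prop :=
  ∀ (Q : Type) [Group Q] [Finite Q] (f : A →* Q), ∃ g : Fin r → Q,
    L.map f = Subgroup.closure (Set.range g)

/-- **Rank additivity in the genus of a free group.** -/
theorem result (A : Type) [Group A] (hfg : Group.FG A) (hrf : ResiduallyFinite A) (n : ℕ)
    (hq : SameFiniteQuotients A (FreeGroup (Fin n))) :
    -- subgroups without nonabelian free subgroups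
    (∀ (k : ℕ) (H : Fin k → Subgroup A), k ≤ n → (∀ i, NoFreeSubgroup (H i)) → ⨆ i, H i = ⊤ →
      k = n ∧ ∃ a : Fin k → A, (∀ i, H i = Subgroup.zpowers (a i)) ∧
        Function.Bijective (FreeGroup.lift a)) ∧
    -- the general case
    (∀ (k : ℕ) (L : Fin k → Subgroup A) (r : Fin k → ℕ),
      (∀ i, ImagesRankLE (L i) (r i) ∨ (r i = 1 ∧ NoFreeSubgroup (L i))) → ∑ i, r i ≤ n →
      ⨆ i, L i = ⊤ →
      ∑ i, r i = n ∧ Function.Bijective (Monoid.CoprodI.lift fun i => (L i).subtype) ∧
      ∀ i, Group.FG (L i) ∧ SameFiniteQuotients (L i) (FreeGroup (Fin (r i))) ∧
        (r i = 1 → ∃ a, L i = Subgroup.zpowers a)) := by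
  refine ⟨?_, ?_⟩
  · intro k H hk hH htop
    exact Pool.Agent.H61.AM.main_le hrf hq hk H hH htop
  · intro k L r hL hr htop
    obtain ⟨hsum, him⟩ := Pool.Agent.H61.AM.imRank_all hq L r hL hr htop
    exact ⟨hsum, Pool.Agent.H61.AM.free_product hrf hq L r him hsum htop,
      Pool.Agent.H61.AM.factors hrf hq L r him hsum htop⟩

end Pool.Agent.Results.MP_305fdd_al.RankAdditive
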